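import Pool.Agent.V11122.Cap.Final

set_option autoImplicit false

/-! A shortest-path triangulation with an uncrossed great circle is sinkable exactly when the
north pole lies on no edge. -/

namespace Pool.Agent.Results.MP_e680c3_co.UncrossedSinkable

open Pool.Agent.V11122.Sink Pool.Agent.V11122.Cap

/-- For every shortest-path triangulation `p` of the sphere without vertices at the poles, and
every great circle `{x | dot n x = 0}` crossed by no edge: `p` is sinkable if and only if the
north pole does not lie on an edge. No genericity is assumed. -/
theorem result : ∀ (V : Type) [Finite V] (G : SimpleGraph V) (p : V → E3) (n : E3),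
    IsTriangulation G p → (∀ v, p v ≠ north ∧ p v ≠ -north) → n ≠ 0 → Uncrossed G p n →
    (Sinkable G p ↔ north ∉ drawing G p) :=
  fun _ _ _ _ _ T hpole hn h => main T hpole hn h

end Pool.Agent.Results.MP_e680c3_co.UncrossedSinkable
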